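import Mathlib

/-!
Dense integer polynomials in two variables as lists of lists, with verified ring operations,
derivatives, and a Bernstein subdivision checker for nonnegativity on the unit box.
-/

namespace Pool.Agent.Lib.BiPoly

def ev1 : List ℤ → ℝ → ℝ
  | [], _ => 0
  | c :: l, y => (c : ℝ) + y * ev1 l y

def ev : List (List ℤ) → ℝ → ℝ → ℝ
  | [], _, _ => 0
  | r :: L, x, y => ev1 r y + x * ev L x y

@[simp] theorem ev1_nil (y : ℝ) : ev1 [] y = 0 := rfl
@[simp] theorem ev1_cons (c : ℤ) (l : List ℤ) (y : ℝ) : ev1 (c :: l) y = c + y * ev1 l y := rfl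
@[simp] theorem ev_nil (x y : ℝ) : ev [] x y = 0 := rfl
@[simp] theorem ev_cons (r : List ℤ) (L : List (List ℤ)) (x y : ℝ) :
    ev (r :: L) x y = ev1 r y + x * ev L x y := rfl

def addG {α : Type} (ad : α → α → α) : List α → List α → List α
  | [], q => q
  | a :: p, [] => a :: p
  | a :: p, b :: q => ad a b :: addG ad p q

def add1 : List ℤ → List ℤ → List ℤ := addG (fun a b => a + b)
def add : List (List ℤ) → List (List ℤ) → List (List ℤ) := addG add1
def smul1 (c : ℤ) (l : List ℤ) : List ℤ := l.map (fun a => c * a)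
def smul (c : ℤ) (L : List (List ℤ)) : List (List ℤ) := L.map (smul1 c)
def mul1 : List ℤ → List ℤ → List ℤ
  | [], _ => []
  | c :: p, q => add1 (smul1 c q) (0 :: mul1 p q)
def mul : List (List ℤ) → List (List ℤ) → List (List ℤ)
  | [], _ => []
  | r :: P, Q => add (Q.map (mul1 r)) ([] :: mul P Q)
def d1 : List ℤ → List ℤ
  | [] => []
  | _ :: l => add1 l (0 :: d1 l)
/-- derivative in the second variable -/
def dY (L : List (List ℤ)) : List (List ℤ) := L.map d1
/-- derivative in the first variable -/
def dX : List (List ℤ) → List (List ℤ)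
  | [] => []
  | _ :: L => add L ([] :: dX L)
/-- the Euler operator `x d/dx` -/
def eul (L : List (List ℤ)) : List (List ℤ) := [] :: dX L
def isZero (L : List (List ℤ)) : Bool := L.all (fun r => r.all (fun c => c == 0))

theorem ev1_add1 : ∀ (p q : List ℤ) (y : ℝ), ev1 (add1 p q) y = ev1 p y + ev1 q y
  | [], q, y => by simp [add1, addG]
  | a :: p, [], y => by simp [add1, addG]
  | a :: p, b :: q, y => by
    have := ev1_add1 p q y
    simp only [add1, addG, ev1_cons] at this ⊢
    rw [this]; push_cast; ring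

theorem ev_add : ∀ (p q : List (List ℤ)) (x y : ℝ), ev (add p q) x y = ev p x y + ev q x y
  | [], q, x, y => by simp [add, addG]
  | a :: p, [], x, y => by simp [add, addG]
  | a :: p, b :: q, x, y => by
    have := ev_add p q x y
    simp only [add, addG, ev_cons] at this ⊢
    rw [this, ev1_add1]; ring

theorem ev1_smul1 (c : ℤ) : ∀ (p : List ℤ) (y : ℝ), ev1 (smul1 c p) y = c * ev1 p y
  | [], y => by simp [smul1]
  | a :: p, y => by
    have := ev1_smul1 c p y
    simp only [smul1, List.map_cons, ev1_cons] at this ⊢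
    rw [this]; push_cast; ring

theorem ev_smul (c : ℤ) : ∀ (p : List (List ℤ)) (x y : ℝ), ev (smul c p) x y = c * ev p x y
  | [], x, y => by simp [smul]
  | a :: p, x, y => by
    have := ev_smul c p x y
    simp only [smul, List.map_cons, ev_cons] at this ⊢
    rw [this, ev1_smul1]; ring

theorem ev1_mul1 : ∀ (p q : List ℤ) (y : ℝ), ev1 (mul1 p q) y = ev1 p y * ev1 q y
  | [], q, y => by simp [mul1]
  | c :: p, q, y => by
    simp only [mul1, ev1_add1, ev1_smul1, ev1_cons, ev1_mul1 p q y]; push_cast; ring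

theorem ev_map_mul1 (r : List ℤ) : ∀ (Q : List (List ℤ)) (x y : ℝ),
    ev (Q.map (mul1 r)) x y = ev1 r y * ev Q x y
  | [], x, y => by simp
  | a :: Q, x, y => by
    simp only [List.map_cons, ev_cons, ev_map_mul1 r Q x y, ev1_mul1]; ring

theorem ev_mul : ∀ (P Q : List (List ℤ)) (x y : ℝ), ev (mul P Q) x y = ev P x y * ev Q x y
  | [], Q, x, y => by simp [mul]
  | r :: P, Q, x, y => by
    simp only [mul, ev_add, ev_map_mul1, ev_cons, ev_mul P Q x y, ev1_nil]; ring

theorem ev_eul (L : List (List ℤ)) (x y : ℝ) : ev (eul L) x y = x * ev (dX L) x y := by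
  simp [eul]

theorem ev1_eq_zero : ∀ (r : List ℤ) (y : ℝ), r.all (fun c => c == 0) = true → ev1 r y = 0
  | [], y, _ => rfl
  | c :: r, y, h => by
    simp only [List.all_cons, Bool.and_eq_true, beq_iff_eq] at h
    simp [h.1, ev1_eq_zero r y h.2]

theorem ev_eq_zero : ∀ (L : List (List ℤ)) (x y : ℝ), isZero L = true → ev L x y = 0
  | [], x, y, _ => rfl
  | r :: L, x, y, h => by
    simp only [isZero, List.all_cons, Bool.and_eq_true] at h
    simp [ev1_eq_zero r y h.1, ev_eq_zero L x y h.2]

theorem ev_eq_of_isZero {P Q : List (List ℤ)} (h : isZero (add P (smul (-1) Q)) = true) (x y : ℝ) :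
    ev P x y = ev Q x y := by
  have := ev_eq_zero _ x y h
  rw [ev_add, ev_smul] at this
  push_cast at this
  linarith

section deriv
variable {E : Type*} [NormedAddCommGroup E] [NormedSpace ℝ E]

theorem hasFDerivAt_ev1 {Y : E → ℝ} {Y' : E →L[ℝ] ℝ} {p : E} (hY : HasFDerivAt Y Y' p) :
    ∀ r : List ℤ, HasFDerivAt (fun q => ev1 r (Y q)) (ev1 (d1 r) (Y p) • Y') p
  | [] => by simpa [d1] using hasFDerivAt_const (0 : ℝ) p
  | c :: r => by
    have h := ((hY.mul (hasFDerivAt_ev1 hY r)).const_add (c : ℝ))
    refine HasFDerivAt.congr_fderiv h ?_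
    ext v
    simp [d1, ev1_add1]
    ring

theorem hasFDerivAt_ev {X Y : E → ℝ} {X' Y' : E →L[ℝ] ℝ} {p : E} (hX : HasFDerivAt X X' p)
    (hY : HasFDerivAt Y Y' p) : ∀ L : List (List ℤ),
    HasFDerivAt (fun q => ev L (X q) (Y q))
      (ev (dX L) (X p) (Y p) • X' + ev (dY L) (X p) (Y p) • Y') p
  | [] => by simpa [dX, dY] using hasFDerivAt_const (0 : ℝ) p
  | r :: L => by
    have h := (hasFDerivAt_ev1 hY r).add (hX.mul (hasFDerivAt_ev hX hY L))
    refine HasFDerivAt.congr_fderiv h ?_
    ext v
    simp [dX, dY, ev_add]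
    ring
end deriv

section generic
variable {α : Type}

/-- homogeneous evaluation `∑ φ(c_k) a^k b^(n-k)` -/
def evG (φ : α → ℝ) : ℕ → List α → ℝ → ℝ → ℝ
  | _, [], _, _ => 0
  | n, c :: l, a, b => φ c * b ^ n + a * evG φ (n - 1) l a b

def goG (ad : α → α → α) : α → List α → List α
  | c, [] => [c]
  | c, x :: l => ad c x :: goG ad x l

def shiftG (ad : α → α → α) : List α → List α
  | [] => []
  | c :: l => goG ad c (shiftG ad l)

def dblG (sm : ℤ → α → α) : ℤ → List α → List α
  | _, [] => []
  | k, c :: l => sm k c :: dblG sm (2 * k) l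

theorem length_goG (ad : α → α → α) : ∀ (c : α) (l : List α), (goG ad c l).length = l.length + 1
  | _, [] => rfl
  | c, x :: l => by simp [goG, length_goG ad x l]

theorem length_shiftG (ad : α → α → α) : ∀ (l : List α), (shiftG ad l).length = l.length
  | [] => rfl
  | c :: l => by simp [shiftG, length_goG, length_shiftG ad l]

theorem length_dblG (sm : ℤ → α → α) : ∀ (k : ℤ) (l : List α), (dblG sm k l).length = l.length
  | _, [] => rfl
  | k, c :: l => by simp [dblG, length_dblG sm (2 * k) l]

theorem forall_goG (ad : α → α → α) (Q : α → Prop) (hQ : ∀ a b, Q a → Q b → Q (ad a b)) :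
    ∀ (c : α) (l : List α), Q c → (∀ x ∈ l, Q x) → ∀ x ∈ goG ad c l, Q x
  | c, [], hc, _ => by simpa [goG] using hc
  | c, y :: l, hc, hl => by
    intro x hx
    simp only [goG, List.mem_cons] at hx
    rcases hx with rfl | hx
    · exact hQ _ _ hc (hl y (by simp))
    · exact forall_goG ad Q hQ y l (hl y (by simp)) (fun z hz => hl z (by simp [hz])) x hx

theorem forall_shiftG (ad : α → α → α) (Q : α → Prop) (hQ : ∀ a b, Q a → Q b → Q (ad a b)) :
    ∀ (l : List α), (∀ x ∈ l, Q x) → ∀ x ∈ shiftG ad l, Q x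
  | [], _ => by simp [shiftG]
  | c :: l, hl => forall_goG ad Q hQ c _ (hl c (by simp))
      (forall_shiftG ad Q hQ l (fun z hz => hl z (by simp [hz])))

theorem forall_dblG (sm : ℤ → α → α) (Q : α → Prop) (hQ : ∀ k a, Q a → Q (sm k a)) :
    ∀ (k : ℤ) (l : List α), (∀ x ∈ l, Q x) → ∀ x ∈ dblG sm k l, Q x
  | _, [], _ => by simp [dblG]
  | k, c :: l, hl => by
    intro x hx
    simp only [dblG, List.mem_cons] at hx
    rcases hx with rfl | hx
    · exact hQ _ _ (hl c (by simp))
    · exact forall_dblG sm Q hQ (2 * k) l (fun z hz => hl z (by simp [hz])) x hx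

theorem evG_goG (φ : α → ℝ) (ad : α → α → α) (h : ∀ a b, φ (ad a b) = φ a + φ b) (a b : ℝ) :
    ∀ (c : α) (l : List α) (n : ℕ), l.length = n →
      evG φ n (goG ad c l) a b = φ c * b ^ n + (a + b) * evG φ (n - 1) l a b
  | c, [], n, _ => by simp [goG, evG]
  | c, x :: l, n, hn => by
    obtain rfl : n = l.length + 1 := by simpa using hn.symm
    have ih := evG_goG φ ad h a b x l l.length rfl
    simp only [goG, evG, h, Nat.add_sub_cancel, ih]
    rcases l with _ | ⟨y, l⟩
    · simp [evG]; ring
    · ring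

theorem evG_shiftG (φ : α → ℝ) (ad : α → α → α) (h : ∀ a b, φ (ad a b) = φ a + φ b) (a b : ℝ) :
    ∀ (l : List α) (n : ℕ), l.length = n + 1 →
      evG φ n (shiftG ad l) a b = evG φ n l (a + b) b
  | [], n, hn => by simp at hn
  | [c], n, _ => by simp [shiftG, goG, evG]
  | c :: x :: l, n, hn => by
    obtain rfl : n = l.length + 1 := by simpa using hn.symm
    have ih := evG_shiftG φ ad h a b (x :: l) l.length rfl
    rw [shiftG, evG_goG φ ad h a b c _ _ (by simp [length_shiftG]), Nat.add_sub_cancel, ih]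
    simp [evG]

theorem evG_dblG (φ : α → ℝ) (sm : ℤ → α → α) (h : ∀ k a, φ (sm k a) = k * φ a) (a b : ℝ) :
    ∀ (k : ℤ) (l : List α) (n : ℕ), evG φ n (dblG sm k l) a b = k * evG φ n l (2 * a) b
  | _, [], _ => by simp [dblG, evG]
  | k, c :: l, n => by
    simp only [dblG, evG, h, evG_dblG φ sm h a b (2 * k) l (n - 1)]; push_cast; ring

theorem evG_append_singleton (φ : α → ℝ) (a b : ℝ) (c : α) :
    ∀ (l : List α) (n : ℕ), l.length = n →
      evG φ n (l ++ [c]) a b = b * evG φ (n - 1) l a b + φ c * a ^ n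
  | [], n, hn => by subst hn; simp [evG]
  | [x], n, hn => by subst hn; simp [evG]; ring
  | x :: y :: l, n, hn => by
    obtain rfl : n = l.length + 2 := by simpa using hn.symm
    have ih := evG_append_singleton φ a b c (y :: l) (l.length + 1) rfl
    simp only [List.cons_append, evG, Nat.add_sub_cancel] at ih ⊢
    have e : l.length + 2 - 1 = l.length + 1 := rfl
    simp only [e, Nat.add_sub_cancel, ih]
    ring

theorem evG_reverse (φ : α → ℝ) (a b : ℝ) :
    ∀ (l : List α) (n : ℕ), l.length = n + 1 → evG φ n l.reverse a b = evG φ n l b a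
  | [], n, hn => by simp at hn
  | [c], n, hn => by
    obtain rfl : n = 0 := by simpa using hn.symm
    simp [evG]
  | c :: x :: l, n, hn => by
    obtain rfl : n = l.length + 1 := by simpa using hn.symm
    have ih := evG_reverse φ a b (x :: l) l.length rfl
    rw [List.reverse_cons, evG_append_singleton φ a b c _ _ (by simp), Nat.add_sub_cancel, ih]
    simp [evG]; ring

theorem evG_congr (φ ψ : α → ℝ) (a b : ℝ) : ∀ (l : List α) (n : ℕ), (∀ x ∈ l, φ x = ψ x) →
    evG φ n l a b = evG ψ n l a b
  | [], _, _ => rfl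
  | c :: l, n, h => by
    simp only [evG, h c (by simp), evG_congr φ ψ a b l (n - 1) (fun z hz => h z (by simp [hz]))]

theorem evG_map {β : Type} (φ : β → ℝ) (f : α → β) (a b : ℝ) : ∀ (l : List α) (n : ℕ),
    evG φ n (l.map f) a b = evG (fun x => φ (f x)) n l a b
  | [], _ => rfl
  | c :: l, n => by simp only [List.map_cons, evG, evG_map φ f a b l (n - 1)]

theorem evG_nonneg (φ : α → ℝ) {a b : ℝ} (ha : 0 ≤ a) (hb : 0 ≤ b) : ∀ (l : List α) (n : ℕ),
    (∀ x ∈ l, 0 ≤ φ x) → 0 ≤ evG φ n l a b
  | [], _, _ => le_rfl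
  | c :: l, n, h => by
    have := evG_nonneg φ ha hb l (n - 1) (fun z hz => h z (by simp [hz]))
    have := h c (by simp)
    simp only [evG]; positivity

/-- upper half: `evG (hiG l) a b = evG l (2a+b) b` -/
def hiG (ad : α → α → α) (sm : ℤ → α → α) (l : List α) : List α := dblG sm 1 (shiftG ad l)
/-- lower half: `evG (loG l) a b = evG l b (2a+b)` -/
def loG (ad : α → α → α) (sm : ℤ → α → α) (l : List α) : List α := hiG ad sm l.reverse
/-- homogenisation: `evG (homG l) a b = evG l a (a+b)` -/
def homG (ad : α → α → α) (l : List α) : List α := (shiftG ad l.reverse).reverse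

theorem evG_hiG (φ : α → ℝ) (ad : α → α → α) (sm : ℤ → α → α)
    (h : ∀ a b, φ (ad a b) = φ a + φ b) (h' : ∀ k a, φ (sm k a) = k * φ a) (a b : ℝ)
    (l : List α) (n : ℕ) (hn : l.length = n + 1) :
    evG φ n (hiG ad sm l) a b = evG φ n l (2 * a + b) b := by
  rw [hiG, evG_dblG φ sm h', evG_shiftG φ ad h _ _ _ _ hn]; simp

theorem evG_loG (φ : α → ℝ) (ad : α → α → α) (sm : ℤ → α → α)
    (h : ∀ a b, φ (ad a b) = φ a + φ b) (h' : ∀ k a, φ (sm k a) = k * φ a) (a b : ℝ)
    (l : List α) (n : ℕ) (hn : l.length = n + 1) :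
    evG φ n (loG ad sm l) a b = evG φ n l b (2 * a + b) := by
  rw [loG, evG_hiG φ ad sm h h' _ _ _ _ (by simpa using hn), evG_reverse _ _ _ _ _ hn]

theorem evG_homG (φ : α → ℝ) (ad : α → α → α) (h : ∀ a b, φ (ad a b) = φ a + φ b) (a b : ℝ)
    (l : List α) (n : ℕ) (hn : l.length = n + 1) :
    evG φ n (homG ad l) a b = evG φ n l a (b + a) := by
  rw [homG, evG_reverse _ _ _ _ _ (by simpa [length_shiftG] using hn),
    evG_shiftG φ ad h _ _ _ _ (by simpa using hn), evG_reverse _ _ _ _ _ hn]

end generic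

def evH1 (m : ℕ) (c d : ℝ) (r : List ℤ) : ℝ := evG (fun z : ℤ => (z : ℝ)) m r c d
def evH (n m : ℕ) (L : List (List ℤ)) (a b c d : ℝ) : ℝ := evG (evH1 m c d) n L a b

theorem evH1_add1 (c d : ℝ) : ∀ (m : ℕ) (p q : List ℤ),
    evH1 m c d (add1 p q) = evH1 m c d p + evH1 m c d q
  | m, [], q => by simp [add1, addG, evH1, evG]
  | m, a :: p, [] => by simp [add1, addG, evH1, evG]
  | m, a :: p, b :: q => by
    have := evH1_add1 c d (m - 1) p q
    simp only [add1, addG, evH1, evG] at this ⊢
    rw [this]; push_cast; ring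

theorem evH1_smul1 (c d : ℝ) (k : ℤ) : ∀ (m : ℕ) (p : List ℤ),
    evH1 m c d (smul1 k p) = k * evH1 m c d p
  | m, [] => by simp [smul1, evH1, evG]
  | m, a :: p => by
    have := evH1_smul1 c d k (m - 1) p
    simp only [smul1, List.map_cons, evH1, evG] at this ⊢
    rw [this]; push_cast; ring

theorem length_add1 : ∀ (p q : List ℤ), p.length = q.length → (add1 p q).length = p.length
  | [], [], _ => rfl
  | [], _ :: _, h => by simp at h
  | _ :: _, [], h => by simp at h
  | a :: p, b :: q, h => by
    have := length_add1 p q (by simpa using h)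
    simp only [add1, addG, List.length_cons] at this ⊢
    rw [this]

def Good (n m : ℕ) (L : List (List ℤ)) : Prop := L.length = n + 1 ∧ ∀ r ∈ L, r.length = m + 1

def Pos (n m : ℕ) (L : List (List ℤ)) : Prop :=
  ∀ a b c d : ℝ, 0 ≤ a → 0 ≤ b → 0 ≤ c → 0 ≤ d → 0 ≤ evH n m L a b c d

def hi1 : List ℤ → List ℤ := hiG (fun a b => a + b) (fun k a => k * a)
def lo1 : List ℤ → List ℤ := loG (fun a b => a + b) (fun k a => k * a)
def hom1 : List ℤ → List ℤ := homG (fun a b => a + b)

/-- subdivision certificates -/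
inductive Cert : Type
  | l : Cert
  | x : Cert → Cert → Cert
  | y : Cert → Cert → Cert

def check : Cert → List (List ℤ) → Bool
  | .l, L => L.all (fun r => r.all (fun c => decide (0 ≤ c)))
  | .x s t, L => check s (loG add1 smul1 L) && check t (hiG add1 smul1 L)
  | .y s t, L => check s (L.map lo1) && check t (L.map hi1)

theorem good_hi {n m : ℕ} {L : List (List ℤ)} (h : Good n m L) : Good n m (hiG add1 smul1 L) := by
  refine ⟨by simp [hiG, length_dblG, length_shiftG, h.1], ?_⟩
  refine forall_dblG _ _ (fun k a ha => by simpa [smul1] using ha) _ _ ?_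
  refine forall_shiftG _ (fun r : List ℤ => r.length = m + 1) (fun a b ha hb => ?_) _ h.2
  rw [length_add1 a b (by rw [ha, hb]), ha]

theorem good_reverse {n m : ℕ} {L : List (List ℤ)} (h : Good n m L) : Good n m L.reverse :=
  ⟨by simp [h.1], fun r hr => h.2 r (by simpa using hr)⟩

theorem good_map {n m : ℕ} {L : List (List ℤ)} (h : Good n m L) (f : List ℤ → List ℤ)
    (hf : ∀ r, (f r).length = r.length) : Good n m (L.map f) := by
  refine ⟨by simp [h.1], fun r hr => ?_⟩
  obtain ⟨r', hr', rfl⟩ := List.mem_map.1 hr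
  rw [hf, h.2 r' hr']

theorem check_sound {n m : ℕ} : ∀ (t : Cert) (L : List (List ℤ)), Good n m L →
    check t L = true → Pos n m L
  | .l, L, _, h => by
    intro a b c d ha hb hc hd
    simp only [check, List.all_eq_true, decide_eq_true_eq] at h
    refine evG_nonneg _ ha hb _ _ (fun r hr => evG_nonneg _ hc hd _ _ (fun z hz => ?_))
    exact_mod_cast h r hr z hz
  | .x s t, L, hL, h => by
    simp only [check, Bool.and_eq_true] at h
    have h1 := check_sound s _ (good_hi (good_reverse hL)) h.1
    have h2 := check_sound t _ (good_hi hL) h.2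
    intro a b c d ha hb hc hd
    rcases le_total a b with hab | hab
    · have := h1 ((b - a) / 2) a c d (by linarith) ha hc hd
      have e := evG_loG (evH1 m c d) add1 smul1 (evH1_add1 c d m) (fun k r => evH1_smul1 c d k m r)
        ((b - a) / 2) a L n hL.1
      simp only [evH, loG] at this e ⊢
      rw [e] at this
      convert this using 2; ring
    · have := h2 ((a - b) / 2) b c d (by linarith) hb hc hd
      have e := evG_hiG (evH1 m c d) add1 smul1 (evH1_add1 c d m) (fun k r => evH1_smul1 c d k m r)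
        ((a - b) / 2) b L n hL.1
      simp only [evH] at this e ⊢
      rw [e] at this
      convert this using 2; ring
  | .y s t, L, hL, h => by
    simp only [check, Bool.and_eq_true] at h
    have h1 := check_sound s _ (good_map hL lo1
      (fun r => by simp [lo1, loG, hiG, length_dblG, length_shiftG])) h.1
    have h2 := check_sound t _ (good_map hL hi1
      (fun r => by simp [hi1, hiG, length_dblG, length_shiftG])) h.2
    intro a b c d ha hb hc hd
    rcases le_total c d with hcd | hcd
    · have := h1 a b ((d - c) / 2) c ha hb (by linarith) hc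
      simp only [evH, evG_map] at this ⊢
      rw [evG_congr _ (evH1 m c d)] at this
      · exact this
      · intro r hr
        simp only [evH1, lo1]
        rw [evG_loG _ _ _ (by simp) (by simp) _ _ _ _ (hL.2 r hr)]
        congr 1; ring
    · have := h2 a b ((c - d) / 2) d ha hb (by linarith) hd
      simp only [evH, evG_map] at this ⊢
      rw [evG_congr _ (evH1 m c d)] at this
      · exact this
      · intro r hr
        simp only [evH1, hi1]
        rw [evG_hiG _ _ _ (by simp) (by simp) _ _ _ _ (hL.2 r hr)]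
        congr 1; ring

theorem evH1_one (y : ℝ) : ∀ (r : List ℤ) (m : ℕ), evH1 m y 1 r = ev1 r y
  | [], _ => rfl
  | c :: r, m => by
    have := evH1_one y r (m - 1)
    simp only [evH1, evG, ev1_cons] at this ⊢
    rw [this]; simp

theorem evH_one (x y : ℝ) (m : ℕ) : ∀ (L : List (List ℤ)) (n : ℕ), evH n m L x 1 y 1 = ev L x y
  | [], _ => rfl
  | r :: L, n => by
    have := evH_one x y m L (n - 1)
    simp only [evH, evG, ev_cons] at this ⊢
    rw [this, evH1_one]; simp

/-- pad or cut a list to length `k` (cutting is refused by `boxCheck`) -/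
def padTo {α : Type} (z : α) : ℕ → List α → List α
  | 0, _ => []
  | k + 1, [] => z :: padTo z k []
  | k + 1, c :: l => c :: padTo z k l

theorem length_padTo {α : Type} (z : α) : ∀ (k : ℕ) (l : List α), (padTo z k l).length = k
  | 0, _ => rfl
  | k + 1, [] => by simp [padTo, length_padTo z k]
  | k + 1, c :: l => by simp [padTo, length_padTo z k]

/-- normal form of bidegree `(n, m)` -/
def norm (n m : ℕ) (L : List (List ℤ)) : List (List ℤ) :=
  (padTo [] (n + 1) L).map (padTo 0 (m + 1))

theorem good_norm (n m : ℕ) (L : List (List ℤ)) : Good n m (norm n m L) := by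
  refine ⟨by simp [norm, length_padTo], fun r hr => ?_⟩
  obtain ⟨r', _, rfl⟩ := List.mem_map.1 hr
  exact length_padTo _ _ _

/-- the checker: `L` has bidegree at most `(n, m)` and the certificate `t` shows `L ≥ 0` on the box -/
def boxCheck (n m : ℕ) (t : Cert) (L : List (List ℤ)) : Bool :=
  isZero (add L (smul (-1) (norm n m L))) && check t ((homG add1 (norm n m L)).map hom1)

theorem boxCheck_sound {n m : ℕ} {t : Cert} {L : List (List ℤ)} (h : boxCheck n m t L = true)
    {x y : ℝ} (hx0 : 0 ≤ x) (hx1 : x ≤ 1) (hy0 : 0 ≤ y) (hy1 : y ≤ 1) : 0 ≤ ev L x y := by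
  simp only [boxCheck, Bool.and_eq_true] at h
  rw [ev_eq_of_isZero h.1]
  have hN := good_norm n m L
  generalize norm n m L = N at *
  have hG : Good n m (homG add1 N) := by
    refine good_reverse ⟨by simp [length_shiftG, hN.1], ?_⟩
    refine forall_shiftG _ (fun r : List ℤ => r.length = m + 1) (fun a b ha hb => ?_) _ (good_reverse hN).2
    rw [length_add1 a b (by rw [ha, hb]), ha]
  have := check_sound t _ (good_map hG hom1 (fun r => by simp [hom1, homG, length_shiftG])) h.2
    x (1 - x) y (1 - y) hx0 (by linarith) hy0 (by linarith)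
  simp only [evH, evG_map] at this
  rw [evG_congr _ (evH1 m y 1), evG_homG _ _ (evH1_add1 y 1 m) _ _ _ _ hN.1] at this
  · have e := evH_one x y m N n
    simp only [evH] at e
    rw [← e]
    convert this using 2; ring
  · intro r hr
    simp only [evH1, hom1]
    rw [evG_homG _ _ (by simp) _ _ _ _ (hG.2 r hr)]
    congr 1; ring

end Pool.Agent.Lib.BiPoly
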